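import Pool.Agent.H.MP_936c16_co.Gr7
import Pool.Agent.H.MP_936c16_co.Grph

/-!
Let `G` be a tree with at least three vertices, `s(G)` its irregularity strength and `b` the number of the
vertices of degree at least three. Then `λ(G) ≤ s(G) ≤ λ(G) + 24 (b + 1)`.

The proof is in the folder `Pool/Agent/H/MP_936c16_co` (files `Ptr`, `Ptr2`, `Ptr3`, `Ptr4`, `Rsv`, `Asm4`, `Gr7`).
The weighted degrees of the leaves and of the vertices of degree two are taken from two intervals, which begin at a
small number `L` and at a number `U > s`; all maximal paths of vertices of degree two are treated one after the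
other, by pairs of neighbours whose weighted degrees are consecutive numbers, and the weights in the path rise by
one for every pair. At most `3 b` paths are treated at the end, with weights near `s` at both ends, such that three
edges at every vertex of degree at least three have weights near `s`.
-/

set_option autoImplicit false

namespace Pool.Agent.Results.MP_936c16_co.BranchGap

open Finset

variable {V : Type} [Fintype V] [DecidableEq V]

/-- There is a weighting of the edges of `G` by the numbers `1, …, s` for which the weighted degrees of all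
vertices are distinct. -/
def IsIrregular (G : SimpleGraph V) [DecidableRel G.Adj] (s : ℕ) : Prop :=
  ∃ w : V → V → ℕ, (∀ u v : V, G.Adj u v → 1 ≤ w u v ∧ w u v ≤ s ∧ w u v = w v u) ∧
    Function.Injective (fun v : V => ∑ u ∈ G.neighborFinset v, w v u)

/-- The irregularity strength `s(G)`. -/
noncomputable def strength (G : SimpleGraph V) [DecidableRel G.Adj] : ℕ :=
  sInf {s : ℕ | IsIrregular G s}

/-- The number `n_k` of vertices of degree `k`. -/
def num (G : SimpleGraph V) [DecidableRel G.Adj] (k : ℕ) : ℕ :=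
  #(univ.filter fun v => G.degree v = k)

/-- `λ(G)`: the maximum of `⌈(i - 1 + ∑_{k=i}^{j} n_k) / j⌉` over `1 ≤ i ≤ j ≤ Δ(G)`. -/
noncomputable def lam (G : SimpleGraph V) [DecidableRel G.Adj] : ℕ :=
  ((Icc 1 G.maxDegree ×ˢ Icc 1 G.maxDegree).filter fun q => q.1 ≤ q.2).sup fun q =>
    ⌈((q.1 : ℚ) - 1 + ∑ k ∈ Icc q.1 q.2, (num G k : ℚ)) / (q.2 : ℚ)⌉₊

theorem le_lam (G : SimpleGraph V) [DecidableRel G.Adj] {i j : ℕ} (h1 : 1 ≤ i) (h2 : i ≤ j)
    (h3 : j ≤ G.maxDegree) :
    ((i : ℚ) - 1 + ∑ k ∈ Icc i j, (num G k : ℚ)) / (j : ℚ) ≤ lam G := by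
  refine (Nat.le_ceil _).trans ?_
  have h4 : (i, j) ∈ (Icc 1 G.maxDegree ×ˢ Icc 1 G.maxDegree).filter fun q => q.1 ≤ q.2 := by
    rw [mem_filter, mem_product, mem_Icc, mem_Icc]
    exact ⟨⟨⟨h1, by omega⟩, by omega, h3⟩, h2⟩
  have h5 := le_sup (f := fun q : ℕ × ℕ =>
    ⌈((q.1 : ℚ) - 1 + ∑ k ∈ Icc q.1 q.2, (num G k : ℚ)) / (q.2 : ℚ)⌉₊) h4
  exact Nat.cast_le.2 h5

/-- the trivial lower bound -/
theorem lam_le {G : SimpleGraph V} [DecidableRel G.Adj] {s : ℕ} (h : IsIrregular G s) :
    lam G ≤ s := by
  obtain ⟨w, hw, hinj⟩ := h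
  refine Finset.sup_le ?_
  rintro ⟨i, j⟩ hq
  rw [mem_filter, mem_product, mem_Icc, mem_Icc] at hq
  simp only at hq
  have hj : 0 < j := hq.1.2.1
  rw [Nat.ceil_le, div_le_iff₀ (by exact_mod_cast hj)]
  have h1 : ∑ k ∈ Icc i j, num G k = #(univ.filter fun v => G.degree v ∈ Icc i j) := by
    rw [card_eq_sum_card_fiberwise (f := fun v => G.degree v) (t := Icc i j)]
    · refine sum_congr rfl fun k hk => ?_
      rw [num, filter_filter]
      congr 1
      ext v
      simp only [mem_filter, mem_univ, true_and]
      constructor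
      · rintro rfl
        exact ⟨hk, rfl⟩
      · exact fun h => h.2
    · intro v hv
      rw [coe_filter, Set.mem_setOf_eq] at hv
      exact hv.2
  have h2 : #(univ.filter fun v => G.degree v ∈ Icc i j) ≤ #(Icc i (j * s)) := by
    refine card_le_card_of_injOn (fun v : V => ∑ u ∈ G.neighborFinset v, w v u) ?_
      (fun _ _ _ _ huv => hinj huv)
    intro v hv
    rw [mem_coe, mem_filter, mem_Icc] at hv
    rw [mem_coe, mem_Icc]
    constructor
    · refine hv.2.1.trans ?_
      rw [← G.card_neighborFinset_eq_degree, card_eq_sum_ones]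
      refine sum_le_sum fun u hu => ?_
      rw [SimpleGraph.mem_neighborFinset] at hu
      exact (hw v u hu).1
    · refine le_trans ?_ (Nat.mul_le_mul_right s hv.2.2)
      rw [← G.card_neighborFinset_eq_degree, ← smul_eq_mul, ← sum_const]
      refine sum_le_sum fun u hu => ?_
      rw [SimpleGraph.mem_neighborFinset] at hu
      exact (hw v u hu).2.1
  rw [← h1, Nat.card_Icc] at h2
  have h3 : i + ∑ k ∈ Icc i j, num G k ≤ s * j + 1 := by
    have h4 : i ≤ j * s + 1 := by
      rcases Nat.eq_zero_or_pos s with h5 | h5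
      · exfalso
        subst h5
        have : 0 < i := hq.1.1.1
        have h6 : 0 < G.maxDegree := by omega
        have hne : Nonempty V := by
          by_contra hcon
          rw [not_nonempty_iff] at hcon
          rw [SimpleGraph.maxDegree_of_isEmpty] at h6
          omega
        obtain ⟨v, hv⟩ := G.exists_maximal_degree_vertex
        rw [hv, ← G.card_neighborFinset_eq_degree, card_pos] at h6
        obtain ⟨u, hu⟩ := h6
        rw [SimpleGraph.mem_neighborFinset] at hu
        have := hw v u hu
        omega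
      · have := Nat.le_mul_of_pos_right j h5
        omega
    rw [mul_comm s j]
    omega
  have h4 : ((i : ℚ) + ∑ k ∈ Icc i j, (num G k : ℚ)) ≤ s * j + 1 := by exact_mod_cast h3
  linarith

theorem two_le_maxDegree {G : SimpleGraph V} [DecidableRel G.Adj] (hG : G.IsTree)
    (h3 : 3 ≤ Fintype.card V) : 2 ≤ G.maxDegree := by
  obtain ⟨u, -, h1, -⟩ := Pool.Agent.H.MP_936c16_co.choose_root hG h3
  exact h1.trans (G.degree_le_maxDegree u)

/-- the number of the vertices of degree at least three -/
def branch (G : SimpleGraph V) [DecidableRel G.Adj] : ℕ :=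
  #(univ.filter fun v => 3 ≤ G.degree v)

/-- **Theorem.** Let `G` be a tree with at least three vertices, `b` of them of degree at least three. Then

* `G` has an irregular weighting with the numbers `1, …, s` for every
  `s ≥ max (n₁, (n₁ + n₂) / 2) + 24 (b + 1)`;
* `s(G) ≤ max (n₁, ⌈(n₁ + n₂) / 2⌉) + 24 (b + 1)`;
* `λ(G) ≤ s(G) ≤ λ(G) + 24 (b + 1)`. -/
theorem result {V : Type} [Fintype V] [DecidableEq V] (G : SimpleGraph V) [DecidableRel G.Adj]
    (hG : G.IsTree) (h3 : 3 ≤ Fintype.card V) :
    (∀ s : ℕ, num G 1 + 24 * (branch G + 1) ≤ s →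
      num G 1 + num G 2 + 48 * (branch G + 1) ≤ 2 * s → IsIrregular G s) ∧
      strength G ≤ max (num G 1) ((num G 1 + num G 2 + 1) / 2) + 24 * (branch G + 1) ∧
      lam G ≤ strength G ∧ strength G ≤ lam G + 24 * (branch G + 1) := by
  have h1 : ∀ s : ℕ, num G 1 + 24 * (branch G + 1) ≤ s →
      num G 1 + num G 2 + 48 * (branch G + 1) ≤ 2 * s → IsIrregular G s := by
    intro s g1 g2
    rcases Nat.eq_zero_or_pos (branch G) with hb | hb
    · refine Pool.Agent.H.MP_936c16_co.exists_weighting' hG h3 ?_
      show num G 2 + 14 * num G 1 ≤ 2 * s + 16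
      have k1 := G.sum_degrees_eq_twice_card_edges
      have k2 := hG.card_edgeFinset
      have k3 : ∀ v, G.degree v ≤ 2 := by
        intro v
        by_contra hcon
        rw [branch, card_eq_zero, filter_eq_empty_iff] at hb
        exact hb (mem_univ v) (by omega)
      have k4 : ∀ v, 1 ≤ G.degree v := by
        intro v
        have hn : Nontrivial V := Fintype.one_lt_card_iff_nontrivial.1 (by omega)
        exact hG.connected.preconnected.degree_pos_of_nontrivial v
      have k5 : ∑ v, (G.degree v + if G.degree v = 1 then 1 else 0) = ∑ _v : V, 2 :=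
        sum_congr rfl fun v _ => by
          have := k3 v
          have := k4 v
          split_ifs <;> omega
      rw [sum_add_distrib, sum_const, smul_eq_mul, card_univ, ← card_filter] at k5
      have k6 : num G 1 = #(univ.filter fun v => G.degree v = 1) := rfl
      omega
    · exact Pool.Agent.H.MP_936c16_co.exists_weighting7 hG rfl hb g1 g2
  obtain ⟨M, hM⟩ : ∃ M, M = max (num G 1) ((num G 1 + num G 2 + 1) / 2) := ⟨_, rfl⟩
  have m1 : num G 1 ≤ M := by
    rw [hM]
    exact le_max_left _ _
  have m2 : (num G 1 + num G 2 + 1) / 2 ≤ M := by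
    rw [hM]
    exact le_max_right _ _
  rw [← hM]
  have h0 : IsIrregular G (M + 24 * (branch G + 1)) := h1 _ (by omega) (by omega)
  have h2 : strength G ≤ M + 24 * (branch G + 1) := Nat.sInf_le h0
  have h4 : IsIrregular G (strength G) := Nat.sInf_mem (s := {s : ℕ | IsIrregular G s}) ⟨_, h0⟩
  have h5 := two_le_maxDegree hG h3
  have h8 : num G 1 + num G 2 ≤ 2 * lam G := by
    have h7 := le_lam G le_rfl (show 1 ≤ 2 by omega) h5
    have h9 : Icc 1 2 = ({1, 2} : Finset ℕ) := rfl
    rw [h9, sum_pair (by omega), div_le_iff₀ (by norm_num)] at h7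
    push_cast at h7
    have h10 : ((num G 1 : ℚ) + num G 2) ≤ 2 * lam G := by linarith
    exact_mod_cast h10
  have h9 : num G 1 ≤ lam G := by
    have h7 := le_lam G le_rfl (show 1 ≤ 1 by omega) (by omega)
    rw [Icc_self, sum_singleton] at h7
    push_cast at h7
    have h10 : (num G 1 : ℚ) ≤ lam G := by linarith
    exact_mod_cast h10
  have h10 : M ≤ lam G := by
    rw [hM]
    exact max_le h9 (by omega)
  exact ⟨h1, h2, lam_le h4, by omega⟩

end Pool.Agent.Results.MP_936c16_co.BranchGap
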