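import Pool.Agent.H.MP_936c16_co.Gr4
import Pool.Agent.H.MP_936c16_co.Gr5

/-!
Let `G` be a tree with `n₁ ≥ 3` vertices of degree one and `n₂ ≥ 70 n₁` vertices of degree two. Then the
irregularity strength of `G` is `s(G) = λ(G) = ⌈(n₁ + n₂) / 2⌉`: the conjecture of Ebert, Hemmeter, Lazebnik and
Woldar holds for these trees, whatever the distribution of their vertices of degree two, and the lower bound
`λ(G)` is attained.

The proof is in the folder `Pool/Agent/H/MP_936c16_co` (files `Thr`, `Fil`, `Sel`, `Ph2`, `Num2`, `Par2`,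
`Exact2`, `Gr3`, `Gr4` and `Num3`, `Fil3`, `Par3`, `Ph3`, `Exact3`, `Path4`, `Gr5`). The root is a vertex of
degree at least three at which a long path of vertices of degree two ends. The vertices of degree two are grouped
in pairs of neighbours in the maximal paths of vertices of degree two; the weighted degrees of a pair are
consecutive numbers. If `n₁ + n₂ = 2 s - 1`, then the weighted degrees of the leaves and of the vertices of
degree two are the numbers `2, …, 2 s`, each once. If `n₁ + n₂ = 2 s` and some leaf has a neighbour of degree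
different from three, then this leaf gets the weight `1`, and the tree without this leaf is weighted as in the
first case. If `n₁ + n₂ = 2 s` and all neighbours of leaves have degree three, then there is a vertex `q` of
degree three with two leaves as neighbours; the weights at `q` are `1`, `s` and `s`.
-/

set_option autoImplicit false

namespace Pool.Agent.Results.MP_936c16_co.ManyDegreeTwo

open Finset

variable {V : Type} [Fintype V] [DecidableEq V]

/-- There is a weighting of the edges of `G` by the numbers `1, …, s` for which the weighted degrees of all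
vertices are distinct. -/
def IsIrregular (G : SimpleGraph V) [DecidableRel G.Adj] (s : ℕ) : Prop :=
  ∃ w : V → V → ℕ, (∀ u v : V, G.Adj u v → 1 ≤ w u v ∧ w u v ≤ s ∧ w u v = w v u) ∧
    Function.Injective (fun v : V => ∑ u ∈ G.neighborFinset v, w v u)

/-- The irregularity strength `s(G)`. -/
noncomputable def strength (G : SimpleGraph V) [DecidableRel G.Adj] : ℕ :=
  sInf {s : ℕ | IsIrregular G s}

/-- The number `n_k` of vertices of degree `k`. -/
def num (G : SimpleGraph V) [DecidableRel G.Adj] (k : ℕ) : ℕ :=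
  #(univ.filter fun v => G.degree v = k)

/-- `λ(G)`: the maximum of `⌈(i - 1 + ∑_{k=i}^{j} n_k) / j⌉` over `1 ≤ i ≤ j ≤ Δ(G)`. -/
noncomputable def lam (G : SimpleGraph V) [DecidableRel G.Adj] : ℕ :=
  ((Icc 1 G.maxDegree ×ˢ Icc 1 G.maxDegree).filter fun q => q.1 ≤ q.2).sup fun q =>
    ⌈((q.1 : ℚ) - 1 + ∑ k ∈ Icc q.1 q.2, (num G k : ℚ)) / (q.2 : ℚ)⌉₊

theorem le_lam (G : SimpleGraph V) [DecidableRel G.Adj] {i j : ℕ} (h1 : 1 ≤ i) (h2 : i ≤ j)
    (h3 : j ≤ G.maxDegree) :
    ((i : ℚ) - 1 + ∑ k ∈ Icc i j, (num G k : ℚ)) / (j : ℚ) ≤ lam G := by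
  refine (Nat.le_ceil _).trans ?_
  have h4 : (i, j) ∈ (Icc 1 G.maxDegree ×ˢ Icc 1 G.maxDegree).filter fun q => q.1 ≤ q.2 := by
    rw [mem_filter, mem_product, mem_Icc, mem_Icc]
    exact ⟨⟨⟨h1, by omega⟩, by omega, h3⟩, h2⟩
  have h5 := le_sup (f := fun q : ℕ × ℕ =>
    ⌈((q.1 : ℚ) - 1 + ∑ k ∈ Icc q.1 q.2, (num G k : ℚ)) / (q.2 : ℚ)⌉₊) h4
  exact Nat.cast_le.2 h5

/-- the trivial lower bound -/
theorem lam_le {G : SimpleGraph V} [DecidableRel G.Adj] {s : ℕ} (h : IsIrregular G s) :
    lam G ≤ s := by
  obtain ⟨w, hw, hinj⟩ := h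
  refine Finset.sup_le ?_
  rintro ⟨i, j⟩ hq
  rw [mem_filter, mem_product, mem_Icc, mem_Icc] at hq
  simp only at hq
  have hj : 0 < j := hq.1.2.1
  rw [Nat.ceil_le, div_le_iff₀ (by exact_mod_cast hj)]
  have h1 : ∑ k ∈ Icc i j, num G k = #(univ.filter fun v => G.degree v ∈ Icc i j) := by
    rw [card_eq_sum_card_fiberwise (f := fun v => G.degree v) (t := Icc i j)]
    · refine sum_congr rfl fun k hk => ?_
      rw [num, filter_filter]
      congr 1
      ext v
      simp only [mem_filter, mem_univ, true_and]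
      constructor
      · rintro rfl
        exact ⟨hk, rfl⟩
      · exact fun h => h.2
    · intro v hv
      rw [coe_filter, Set.mem_setOf_eq] at hv
      exact hv.2
  have h2 : #(univ.filter fun v => G.degree v ∈ Icc i j) ≤ #(Icc i (j * s)) := by
    refine card_le_card_of_injOn (fun v : V => ∑ u ∈ G.neighborFinset v, w v u) ?_
      (fun _ _ _ _ huv => hinj huv)
    intro v hv
    rw [mem_coe, mem_filter, mem_Icc] at hv
    rw [mem_coe, mem_Icc]
    constructor
    · refine hv.2.1.trans ?_
      rw [← G.card_neighborFinset_eq_degree, card_eq_sum_ones]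
      refine sum_le_sum fun u hu => ?_
      rw [SimpleGraph.mem_neighborFinset] at hu
      exact (hw v u hu).1
    · refine le_trans ?_ (Nat.mul_le_mul_right s hv.2.2)
      rw [← G.card_neighborFinset_eq_degree, ← smul_eq_mul, ← sum_const]
      refine sum_le_sum fun u hu => ?_
      rw [SimpleGraph.mem_neighborFinset] at hu
      exact (hw v u hu).2.1
  rw [← h1, Nat.card_Icc] at h2
  have h3 : i + ∑ k ∈ Icc i j, num G k ≤ s * j + 1 := by
    have h4 : i ≤ j * s + 1 := by
      rcases Nat.eq_zero_or_pos s with h5 | h5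
      · exfalso
        subst h5
        have : 0 < i := hq.1.1.1
        have h6 : 0 < G.maxDegree := by omega
        have hne : Nonempty V := by
          by_contra hcon
          rw [not_nonempty_iff] at hcon
          rw [SimpleGraph.maxDegree_of_isEmpty] at h6
          omega
        obtain ⟨v, hv⟩ := G.exists_maximal_degree_vertex
        rw [hv, ← G.card_neighborFinset_eq_degree, card_pos] at h6
        obtain ⟨u, hu⟩ := h6
        rw [SimpleGraph.mem_neighborFinset] at hu
        have := hw v u hu
        omega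
      · have := Nat.le_mul_of_pos_right j h5
        omega
    rw [mul_comm s j]
    omega
  have h4 : ((i : ℚ) + ∑ k ∈ Icc i j, (num G k : ℚ)) ≤ s * j + 1 := by exact_mod_cast h3
  linarith

/-- **Theorem.** Let `G` be a tree with `n₁ ≥ 3` leaves and `n₂ ≥ 70 n₁` vertices of degree two. Then

* `G` has an irregular weighting with the numbers `1, …, ⌈(n₁ + n₂) / 2⌉`;
* `s(G) = ⌈(n₁ + n₂) / 2⌉`;
* `s(G) = λ(G)`. -/
theorem result {V : Type} [Fintype V] [DecidableEq V] (G : SimpleGraph V) [DecidableRel G.Adj]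
    (hG : G.IsTree) (h3 : 3 ≤ num G 1) (hC : 70 * num G 1 ≤ num G 2) :
    IsIrregular G ((num G 1 + num G 2 + 1) / 2) ∧
      strength G = (num G 1 + num G 2 + 1) / 2 ∧ strength G = lam G := by
  have h1 : IsIrregular G ((num G 1 + num G 2 + 1) / 2) := by
    rcases Nat.mod_two_eq_zero_or_one (num G 1 + num G 2) with h9 | h9
    · have h10 : num G 1 + num G 2 = 2 * ((num G 1 + num G 2 + 1) / 2) := by omega
      by_cases hE : ∃ y q : V, G.degree y = 1 ∧ G.Adj y q ∧ G.degree q ≠ 3
      · obtain ⟨y, q, hy, hyq, hq⟩ := hE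
        exact Pool.Agent.H.MP_936c16_co.exists_weighting4 hG h3 hC h10 hy hyq hq
      · refine Pool.Agent.H.MP_936c16_co.exists_weighting5 hG h3 hC h10 fun y q hy hyq => ?_
        by_contra hq
        exact hE ⟨y, q, hy, hyq, hq⟩
    · obtain ⟨w, hw, hinj, -⟩ := Pool.Agent.H.MP_936c16_co.exists_weighting3 hG h3
        (show 69 * num G 1 ≤ num G 2 by omega) (fun _ => 0) (fun _ => Nat.zero_le 1)
        (fun _ _ => rfl) (s := (num G 1 + num G 2 + 1) / 2) (by
          show num G 1 + num G 2 + 1 ≤ _
          omega) (by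
          show _ ≤ num G 1 + num G 2 + 2
          omega)
      exact ⟨w, hw, fun u v huv => hinj huv⟩
  have h2 : strength G ≤ (num G 1 + num G 2 + 1) / 2 := Nat.sInf_le h1
  have h4 : IsIrregular G (strength G) := Nat.sInf_mem (s := {s : ℕ | IsIrregular G s}) ⟨_, h1⟩
  have h5 : 2 ≤ G.maxDegree := by
    have h6 : 0 < num G 2 := by omega
    obtain ⟨v, hv⟩ := card_pos.1 h6
    rw [mem_filter] at hv
    have h7 := G.degree_le_maxDegree v
    omega
  have h8 : num G 1 + num G 2 ≤ 2 * lam G := by
    have h7 := le_lam G le_rfl (show 1 ≤ 2 by omega) h5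
    have h9 : Icc 1 2 = ({1, 2} : Finset ℕ) := rfl
    rw [h9, sum_pair (by omega), div_le_iff₀ (by norm_num)] at h7
    push_cast at h7
    have h10 : ((num G 1 : ℚ) + num G 2) ≤ 2 * lam G := by linarith
    exact_mod_cast h10
  have h6 := lam_le h4
  exact ⟨h1, by omega, by omega⟩

end Pool.Agent.Results.MP_936c16_co.ManyDegreeTwo
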