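import Pool.Agent.H.MP_936c16_co.Lw5
import Pool.Agent.H.MP_936c16_co.Grph

/-!
Let `G` be a tree, `b` the number of its vertices of degree at least three, and `n₁ ≥ n₂ + 18 (b + 1)`. Then the
irregularity strength `s(G)` is `n₁ = λ(G)`.

The proof is in the folder `Pool/Agent/H/MP_936c16_co` (files `Lw1`, `Lw1b`, `Lw2`, `Lw3`, `Lw4`, `Lw5`, with
`Lv1`, `Rsv`, `Ptr`, `Ph1`). With `s = n₁` every number `1, …, s` is the weighted degree of one leaf, the vertices of
degree two have weighted degrees in `s + 1, …, 2 s`, the vertices of degree at least three weighted degrees larger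
than `2 s`. For the last property at most `3 b` of the maximal paths of vertices of degree two are reserved, with
weights near `s` at both ends, such that at least three edges at every vertex of degree at least three have weights
near `s`. The other maximal paths start at leaves, the longer ones with the larger weights. The weighted degrees of
the vertices of degree at least three are made distinct by a greedy choice, except for the root and one of the
vertices below it. These two are treated by a choice between two possibilities: the weights `s - 1` and `s` of two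
leaves are exchanged, or one weighted degree in a reserved path is changed by one.
-/

set_option autoImplicit false

namespace Pool.Agent.Results.MP_936c16_co.ManyLeaves

open Finset

variable {V : Type} [Fintype V] [DecidableEq V]

/-- There is a weighting of the edges of `G` by the numbers `1, …, s` for which the weighted degrees of all
vertices are distinct. -/
def IsIrregular (G : SimpleGraph V) [DecidableRel G.Adj] (s : ℕ) : Prop :=
  ∃ w : V → V → ℕ, (∀ u v : V, G.Adj u v → 1 ≤ w u v ∧ w u v ≤ s ∧ w u v = w v u) ∧
    Function.Injective (fun v : V => ∑ u ∈ G.neighborFinset v, w v u)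

/-- The irregularity strength `s(G)`. -/
noncomputable def strength (G : SimpleGraph V) [DecidableRel G.Adj] : ℕ :=
  sInf {s : ℕ | IsIrregular G s}

/-- The number `n_k` of vertices of degree `k`. -/
def num (G : SimpleGraph V) [DecidableRel G.Adj] (k : ℕ) : ℕ :=
  #(univ.filter fun v => G.degree v = k)

/-- `λ(G)`: the maximum of `⌈(i - 1 + ∑_{k=i}^{j} n_k) / j⌉` over `1 ≤ i ≤ j ≤ Δ(G)`. -/
noncomputable def lam (G : SimpleGraph V) [DecidableRel G.Adj] : ℕ :=
  ((Icc 1 G.maxDegree ×ˢ Icc 1 G.maxDegree).filter fun q => q.1 ≤ q.2).sup fun q =>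
    ⌈((q.1 : ℚ) - 1 + ∑ k ∈ Icc q.1 q.2, (num G k : ℚ)) / (q.2 : ℚ)⌉₊

theorem le_lam (G : SimpleGraph V) [DecidableRel G.Adj] {i j : ℕ} (h1 : 1 ≤ i) (h2 : i ≤ j)
    (h3 : j ≤ G.maxDegree) :
    ((i : ℚ) - 1 + ∑ k ∈ Icc i j, (num G k : ℚ)) / (j : ℚ) ≤ lam G := by
  refine (Nat.le_ceil _).trans ?_
  have h4 : (i, j) ∈ (Icc 1 G.maxDegree ×ˢ Icc 1 G.maxDegree).filter fun q => q.1 ≤ q.2 := by
    rw [mem_filter, mem_product, mem_Icc, mem_Icc]
    exact ⟨⟨⟨h1, by omega⟩, by omega, h3⟩, h2⟩
  have h5 := le_sup (f := fun q : ℕ × ℕ =>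
    ⌈((q.1 : ℚ) - 1 + ∑ k ∈ Icc q.1 q.2, (num G k : ℚ)) / (q.2 : ℚ)⌉₊) h4
  exact Nat.cast_le.2 h5

/-- the trivial lower bound -/
theorem lam_le {G : SimpleGraph V} [DecidableRel G.Adj] {s : ℕ} (h : IsIrregular G s) :
    lam G ≤ s := by
  obtain ⟨w, hw, hinj⟩ := h
  refine Finset.sup_le ?_
  rintro ⟨i, j⟩ hq
  rw [mem_filter, mem_product, mem_Icc, mem_Icc] at hq
  simp only at hq
  have hj : 0 < j := hq.1.2.1
  rw [Nat.ceil_le, div_le_iff₀ (by exact_mod_cast hj)]
  have h1 : ∑ k ∈ Icc i j, num G k = #(univ.filter fun v => G.degree v ∈ Icc i j) := by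
    rw [card_eq_sum_card_fiberwise (f := fun v => G.degree v) (t := Icc i j)]
    · refine sum_congr rfl fun k hk => ?_
      rw [num, filter_filter]
      congr 1
      ext v
      simp only [mem_filter, mem_univ, true_and]
      constructor
      · rintro rfl
        exact ⟨hk, rfl⟩
      · exact fun h => h.2
    · intro v hv
      rw [coe_filter, Set.mem_setOf_eq] at hv
      exact hv.2
  have h2 : #(univ.filter fun v => G.degree v ∈ Icc i j) ≤ #(Icc i (j * s)) := by
    refine card_le_card_of_injOn (fun v : V => ∑ u ∈ G.neighborFinset v, w v u) ?_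
      (fun _ _ _ _ huv => hinj huv)
    intro v hv
    rw [mem_coe, mem_filter, mem_Icc] at hv
    rw [mem_coe, mem_Icc]
    constructor
    · refine hv.2.1.trans ?_
      rw [← G.card_neighborFinset_eq_degree, card_eq_sum_ones]
      refine sum_le_sum fun u hu => ?_
      rw [SimpleGraph.mem_neighborFinset] at hu
      exact (hw v u hu).1
    · refine le_trans ?_ (Nat.mul_le_mul_right s hv.2.2)
      rw [← G.card_neighborFinset_eq_degree, ← smul_eq_mul, ← sum_const]
      refine sum_le_sum fun u hu => ?_
      rw [SimpleGraph.mem_neighborFinset] at hu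
      exact (hw v u hu).2.1
  rw [← h1, Nat.card_Icc] at h2
  have h3 : i + ∑ k ∈ Icc i j, num G k ≤ s * j + 1 := by
    have h4 : i ≤ j * s + 1 := by
      rcases Nat.eq_zero_or_pos s with h5 | h5
      · exfalso
        subst h5
        have : 0 < i := hq.1.1.1
        have h6 : 0 < G.maxDegree := by omega
        have hne : Nonempty V := by
          by_contra hcon
          rw [not_nonempty_iff] at hcon
          rw [SimpleGraph.maxDegree_of_isEmpty] at h6
          omega
        obtain ⟨v, hv⟩ := G.exists_maximal_degree_vertex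
        rw [hv, ← G.card_neighborFinset_eq_degree, card_pos] at h6
        obtain ⟨u, hu⟩ := h6
        rw [SimpleGraph.mem_neighborFinset] at hu
        have := hw v u hu
        omega
      · have := Nat.le_mul_of_pos_right j h5
        omega
    rw [mul_comm s j]
    omega
  have h4 : ((i : ℚ) + ∑ k ∈ Icc i j, (num G k : ℚ)) ≤ s * j + 1 := by exact_mod_cast h3
  linarith

/-- the number of the vertices of degree at least three -/
def branch (G : SimpleGraph V) [DecidableRel G.Adj] : ℕ :=
  #(univ.filter fun v => 3 ≤ G.degree v)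

/-- **Theorem.** Let `G` be a tree with `n₁ ≥ n₂ + 18 (b + 1)`, where `b` is the number of the vertices of degree
at least three. Then `G` has an irregular weighting with the numbers `1, …, n₁`, and `s(G) = λ(G) = n₁`. -/
theorem result {V : Type} [Fintype V] [DecidableEq V] (G : SimpleGraph V) [DecidableRel G.Adj]
    (hG : G.IsTree) (h : num G 2 + 18 * (branch G + 1) ≤ num G 1) :
    IsIrregular G (num G 1) ∧ strength G = num G 1 ∧ lam G = num G 1 := by
  have h0 : IsIrregular G (num G 1) :=
    Pool.Agent.H.MP_936c16_co.exists_weighting9 hG rfl h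
  have h2 : strength G ≤ num G 1 := Nat.sInf_le h0
  have h4 : IsIrregular G (strength G) := Nat.sInf_mem (s := {s : ℕ | IsIrregular G s}) ⟨_, h0⟩
  have h6 := lam_le h4
  have h5 : 1 ≤ G.maxDegree := by
    have h6 : 0 < num G 1 := by omega
    rw [num, card_pos] at h6
    obtain ⟨v, hv⟩ := h6
    rw [← (mem_filter.1 hv).2]
    exact G.degree_le_maxDegree v
  have h9 : num G 1 ≤ lam G := by
    have h7 := le_lam G le_rfl (show 1 ≤ 1 by omega) h5
    rw [Icc_self, sum_singleton] at h7
    push_cast at h7
    have h10 : (num G 1 : ℚ) ≤ lam G := by linarith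
    exact_mod_cast h10
  exact ⟨h0, by omega, by omega⟩

end Pool.Agent.Results.MP_936c16_co.ManyLeaves
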