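import Pool.Agent.H.MP_936c16_co.Tree2

/-!
Upper bounds for the irregularity strength `s(G)` of an arbitrary tree `G` with at least three vertices
by the numbers `n₁`, `n₂` of vertices of degree one and two: `s(G) ≤ max (2 n₁ - 1) (n₁ + n₂ - 2)`, which
is less than `2 λ(G)`, and `s(G) ≤ n₁ + max (n₂ - 2) r + r - 1` if `n₁ ≤ r ^ 2 + 1`.

The proof is in the folder `Pool/Agent/H/MP_936c16_co`. The tree is rooted at an inner vertex all whose
neighbours but at most one are leaves; the leaves not at the root get the largest weights except some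
equally spaced ones; the other vertices are treated from the leaves to the root, each gets the largest
free weighted degree it can get; a counting argument shows that there is always a free one; the weights of
the leaves at the root are chosen at the end.
-/

set_option autoImplicit false

namespace Pool.Agent.Results.MP_936c16_co.StrengthBound

open Finset

variable {V : Type} [Fintype V] [DecidableEq V]

/-- There is a weighting of the edges of `G` by the numbers `1, …, s` for which the weighted degrees of all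
vertices are distinct. -/
def IsIrregular (G : SimpleGraph V) [DecidableRel G.Adj] (s : ℕ) : Prop :=
  ∃ w : V → V → ℕ, (∀ u v : V, G.Adj u v → 1 ≤ w u v ∧ w u v ≤ s ∧ w u v = w v u) ∧
    Function.Injective (fun v : V => ∑ u ∈ G.neighborFinset v, w v u)

/-- The irregularity strength `s(G)`. -/
noncomputable def strength (G : SimpleGraph V) [DecidableRel G.Adj] : ℕ :=
  sInf {s : ℕ | IsIrregular G s}

/-- The number `n_k` of vertices of degree `k`. -/
def num (G : SimpleGraph V) [DecidableRel G.Adj] (k : ℕ) : ℕ :=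
  #(univ.filter fun v => G.degree v = k)

/-- `λ(G)`: the maximum of `⌈(i - 1 + ∑_{k=i}^{j} n_k) / j⌉` over `1 ≤ i ≤ j ≤ Δ(G)`. -/
noncomputable def lam (G : SimpleGraph V) [DecidableRel G.Adj] : ℕ :=
  ((Icc 1 G.maxDegree ×ˢ Icc 1 G.maxDegree).filter fun q => q.1 ≤ q.2).sup fun q =>
    ⌈((q.1 : ℚ) - 1 + ∑ k ∈ Icc q.1 q.2, (num G k : ℚ)) / (q.2 : ℚ)⌉₊

theorem le_lam (G : SimpleGraph V) [DecidableRel G.Adj] {i j : ℕ} (h1 : 1 ≤ i) (h2 : i ≤ j)
    (h3 : j ≤ G.maxDegree) :
    ((i : ℚ) - 1 + ∑ k ∈ Icc i j, (num G k : ℚ)) / (j : ℚ) ≤ lam G := by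
  refine (Nat.le_ceil _).trans ?_
  have h4 : (i, j) ∈ (Icc 1 G.maxDegree ×ˢ Icc 1 G.maxDegree).filter fun q => q.1 ≤ q.2 := by
    rw [mem_filter, mem_product, mem_Icc, mem_Icc]
    exact ⟨⟨⟨h1, by omega⟩, by omega, h3⟩, h2⟩
  have h5 := le_sup (f := fun q : ℕ × ℕ =>
    ⌈((q.1 : ℚ) - 1 + ∑ k ∈ Icc q.1 q.2, (num G k : ℚ)) / (q.2 : ℚ)⌉₊) h4
  exact Nat.cast_le.2 h5

/-- the trivial lower bound -/
theorem lam_le {G : SimpleGraph V} [DecidableRel G.Adj] {s : ℕ} (h : IsIrregular G s) :
    lam G ≤ s := by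
  obtain ⟨w, hw, hinj⟩ := h
  refine Finset.sup_le ?_
  rintro ⟨i, j⟩ hq
  rw [mem_filter, mem_product, mem_Icc, mem_Icc] at hq
  simp only at hq
  have hj : 0 < j := hq.1.2.1
  rw [Nat.ceil_le, div_le_iff₀ (by exact_mod_cast hj)]
  have h1 : ∑ k ∈ Icc i j, num G k = #(univ.filter fun v => G.degree v ∈ Icc i j) := by
    rw [card_eq_sum_card_fiberwise (f := fun v => G.degree v) (t := Icc i j)]
    · refine sum_congr rfl fun k hk => ?_
      rw [num, filter_filter]
      congr 1
      ext v
      simp only [mem_filter, mem_univ, true_and]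
      constructor
      · rintro rfl
        exact ⟨hk, rfl⟩
      · exact fun h => h.2
    · intro v hv
      rw [coe_filter, Set.mem_setOf_eq] at hv
      exact hv.2
  have h2 : #(univ.filter fun v => G.degree v ∈ Icc i j) ≤ #(Icc i (j * s)) := by
    refine card_le_card_of_injOn (fun v : V => ∑ u ∈ G.neighborFinset v, w v u) ?_
      (fun _ _ _ _ huv => hinj huv)
    intro v hv
    rw [mem_coe, mem_filter, mem_Icc] at hv
    rw [mem_coe, mem_Icc]
    constructor
    · refine hv.2.1.trans ?_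
      rw [← G.card_neighborFinset_eq_degree, card_eq_sum_ones]
      refine sum_le_sum fun u hu => ?_
      rw [SimpleGraph.mem_neighborFinset] at hu
      exact (hw v u hu).1
    · refine le_trans ?_ (Nat.mul_le_mul_right s hv.2.2)
      rw [← G.card_neighborFinset_eq_degree, ← smul_eq_mul, ← sum_const]
      refine sum_le_sum fun u hu => ?_
      rw [SimpleGraph.mem_neighborFinset] at hu
      exact (hw v u hu).2.1
  rw [← h1, Nat.card_Icc] at h2
  have h3 : i + ∑ k ∈ Icc i j, num G k ≤ s * j + 1 := by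
    have h4 : i ≤ j * s + 1 := by
      rcases Nat.eq_zero_or_pos s with h5 | h5
      · exfalso
        subst h5
        have : 0 < i := hq.1.1.1
        have h6 : 0 < G.maxDegree := by omega
        have hne : Nonempty V := by
          by_contra hcon
          rw [not_nonempty_iff] at hcon
          rw [SimpleGraph.maxDegree_of_isEmpty] at h6
          omega
        obtain ⟨v, hv⟩ := G.exists_maximal_degree_vertex
        rw [hv, ← G.card_neighborFinset_eq_degree, card_pos] at h6
        obtain ⟨u, hu⟩ := h6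
        rw [SimpleGraph.mem_neighborFinset] at hu
        have := hw v u hu
        omega
      · have := Nat.le_mul_of_pos_right j h5
        omega
    rw [mul_comm s j]
    omega
  have h4 : ((i : ℚ) + ∑ k ∈ Icc i j, (num G k : ℚ)) ≤ s * j + 1 := by exact_mod_cast h3
  linarith

theorem two_le_maxDegree {G : SimpleGraph V} [DecidableRel G.Adj] (hG : G.IsTree)
    (h3 : 3 ≤ Fintype.card V) : 2 ≤ G.maxDegree := by
  obtain ⟨u, -, h1, -⟩ := Pool.Agent.H.MP_936c16_co.choose_root hG h3
  exact h1.trans (G.degree_le_maxDegree u)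

theorem one_le_num {G : SimpleGraph V} [DecidableRel G.Adj] (hG : G.IsTree)
    (h3 : 3 ≤ Fintype.card V) : 1 ≤ num G 1 := by
  obtain ⟨u, p, h1, -, h2⟩ := Pool.Agent.H.MP_936c16_co.choose_root hG h3
  rw [← G.card_neighborFinset_eq_degree] at h1
  obtain ⟨z, hz, hzp⟩ := exists_mem_ne (s := G.neighborFinset u) (by omega) p
  rw [SimpleGraph.mem_neighborFinset] at hz
  exact card_pos.2 ⟨z, mem_filter.2 ⟨mem_univ _, h2 z hz hzp⟩⟩

/-- **Theorem.** Let `G` be a tree with at least three vertices. Then `G` has an irregular weighting and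

* `s(G) ≤ n₁ + x + g` whenever `n₁ ≤ (g + 1) x + 1` and `n₂ ≤ x + 2`;
* `s(G) ≤ max (2 n₁ - 1) (n₁ + n₂ - 2)`;
* `s(G) ≤ n₁ + max (n₂ - 2) r + r - 1` whenever `1 ≤ r` and `n₁ ≤ r ^ 2 + 1`;
* `λ(G) ≤ s(G) ≤ 2 λ(G) - 1`. -/
theorem result {V : Type} [Fintype V] [DecidableEq V] (G : SimpleGraph V) [DecidableRel G.Adj]
    (hG : G.IsTree) (h3 : 3 ≤ Fintype.card V) :
    IsIrregular G (strength G) ∧
      (∀ x g : ℕ, num G 1 ≤ (g + 1) * x + 1 → num G 2 ≤ x + 2 →
        strength G ≤ num G 1 + x + g) ∧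
      strength G ≤ max (2 * num G 1 - 1) (num G 1 + num G 2 - 2) ∧
      (∀ r : ℕ, 1 ≤ r → num G 1 ≤ r ^ 2 + 1 →
        strength G ≤ num G 1 + max (num G 2 - 2) r + r - 1) ∧
      lam G ≤ strength G ∧ strength G ≤ 2 * lam G - 1 := by
  have h1 : ∀ x g : ℕ, num G 1 ≤ (g + 1) * x + 1 → num G 2 ≤ x + 2 →
      IsIrregular G (num G 1 + x + g) := fun x g hx hg =>
    Pool.Agent.H.MP_936c16_co.exists_weighting hG h3 hx hg
  have h1' : ∀ x g : ℕ, num G 1 ≤ (g + 1) * x + 1 → num G 2 ≤ x + 2 →
      strength G ≤ num G 1 + x + g := fun x g hx hg => Nat.sInf_le (h1 x g hx hg)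
  have h2 : IsIrregular G (strength G) := Nat.sInf_mem (s := {s : ℕ | IsIrregular G s})
    ⟨_, h1 (num G 1 + num G 2) 0 (by omega) (by omega)⟩
  have hn := one_le_num hG h3
  have h4 : strength G ≤ max (2 * num G 1 - 1) (num G 1 + num G 2 - 2) := by
    have := h1' (max (num G 1 - 1) (num G 2 - 2)) 0 (by omega) (by omega)
    omega
  have h4' : ∀ r : ℕ, 1 ≤ r → num G 1 ≤ r ^ 2 + 1 →
      strength G ≤ num G 1 + max (num G 2 - 2) r + r - 1 := by
    intro r h5 hr
    have h6 : r * r ≤ (r - 1 + 1) * max (num G 2 - 2) r := by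
      rw [Nat.sub_add_cancel h5]
      exact Nat.mul_le_mul_left _ (le_max_right _ _)
    have := h1' (max (num G 2 - 2) r) (r - 1) (by rw [pow_two] at hr; omega) (by omega)
    omega
  have h5 := two_le_maxDegree hG h3
  have h6 : num G 1 ≤ lam G := by
    have h7 := le_lam G le_rfl le_rfl (show 1 ≤ G.maxDegree by omega)
    rw [Icc_self, sum_singleton, Nat.cast_one, div_one, sub_self, zero_add] at h7
    exact_mod_cast h7
  have h8 : num G 1 + num G 2 ≤ 2 * lam G := by
    have h7 := le_lam G le_rfl (show 1 ≤ 2 by omega) h5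
    have h9 : Icc 1 2 = ({1, 2} : Finset ℕ) := rfl
    rw [h9, sum_pair (by omega), div_le_iff₀ (by norm_num)] at h7
    push_cast at h7
    have h10 : ((num G 1 : ℚ) + num G 2) ≤ 2 * lam G := by linarith
    exact_mod_cast h10
  refine ⟨h2, h1', h4, h4', lam_le h2, ?_⟩
  omega

end Pool.Agent.Results.MP_936c16_co.StrengthBound
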